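import Pool.Agent.Work.MP_50f8f6_al.S1Defs

/-!
# Block S1.B1b: thin triangles for visible base points
-/

set_option autoImplicit false

namespace FrobP
open GMet

namespace B1b
variable {V ι : Type} [GMet V] (C : ConeData V ι)

theorem inArch_symm {i : ι} {v w : Cone C} {k : ℕ} (h : S1.InArch C i v w k) :
    S1.InArch C i w v k := by
  obtain ⟨h1, h2, h3⟩ := h
  refine ⟨h1, h2, ?_⟩
  rcases h3 with h3 | h3 | h3
  · exact Or.inr (Or.inl h3)
  · exact Or.inl h3
  · exact Or.inr (Or.inr (by rw [GMet.symm]; exact h3))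

theorem vis_symm {v w : Cone C} {z : V} (h : S1.Vis C v w z) : S1.Vis C w v z :=
  ⟨h.1.symm', fun i hi => (h.2 i (inArch_symm C hi)).symm⟩

theorem ll_symm {v w u : Cone C} (h : u ∈ S1.LL C v w) : u ∈ S1.LL C w v := by
  rcases h with ⟨z, hz, rfl⟩ | ⟨i, k, h1, h2, rfl⟩ | ⟨i, k, h1, h2, rfl⟩
  · exact Or.inl ⟨z, vis_symm C hz, rfl⟩
  · exact Or.inr (Or.inr ⟨i, k, inArch_symm C h1, h2, rfl⟩)
  · exact Or.inr (Or.inl ⟨i, k, inArch_symm C h1, h2, rfl⟩)

theorem near_vl {i : ι} {y z : V} (hy : y ∈ C.Y i) {k : ℕ} (h : d z y ≤ k * C.R) :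
    d (Cone.base C z) (S1.vl C i y hy 1) ≤ k + 1 := by
  have hρ := C.hρ
  have e : S1.vl C i y hy 1 = Cone.lev C i y 1 hy le_rfl hρ := by
    unfold S1.vl
    rw [dif_neg one_ne_zero, dif_pos hρ]
  rw [e]
  have h1 := Cone.base_le C k z y h
  have h2 := Cone.base_lev C 1 i y hy le_rfl hρ
  have := tri (Cone.base C z) (Cone.base C y) (Cone.lev C i y 1 hy le_rfl hρ)
  omega

theorem not_inArch {i : ι} {v w : Cone C} (h : ¬ S1.InArch C i v w 1) :
    S1.lv C i v = 0 ∧ S1.lv C i w = 0 ∧ d (S1.av C i v) (S1.av C i w) ≤ C.R := by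
  unfold S1.InArch at h
  push Not at h
  have h1 := h le_rfl (Nat.le_add_left 1 C.ρ)
  rw [Nat.sub_self, pow_zero, one_mul] at h1
  omega

theorem half (hF1 : S1.F1Stmt) {θ : ℕ} (hF : Fam C θ) (hR : 100 * θ ≤ C.R) (v w u : Cone C)
    (z z' : V) (hz : S1.Vis C v w z) (hz' : Bt (S1.be C v) z' (S1.be C u)) (hd : d z z' ≤ 4 * θ) :
    ∃ x, (x ∈ S1.LL C v u ∨ x ∈ S1.LL C u w) ∧ d (Cone.base C z) x ≤ 6 := by
  by_cases hvis : S1.Vis C v u z'
  · refine ⟨Cone.base C z', Or.inl (Or.inl ⟨z', hvis, rfl⟩), ?_⟩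
    have := Cone.base_le C 1 z z' (by omega)
    omega
  · have h1 : ∃ i, S1.InArch C i v u 1 ∧ ¬ S1.VisI C i v u z' := by
      by_contra hcon
      push Not at hcon
      exact hvis ⟨hz', hcon⟩
    obtain ⟨i, hi, hni⟩ := h1
    have hf1 := hF1 V ι C θ hF hR i v u z' hz' hni
    have hcz := S1.pj_spec C i z
    have hzc : d z (S1.pj C i z) ≤ 20 * θ := by
      have e1 := hcz.2 _ (S1.pj_mem C i z')
      have e2 := tri z z' (S1.pj C i z')
      omega
    by_cases hvw : S1.InArch C i v w 1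
    · rcases hz.2 i hvw with ⟨h2, h3⟩ | ⟨h2, h3⟩
      · refine ⟨S1.vl C i (S1.av C i v) (S1.av_mem C i v) 1,
          Or.inl (Or.inr (Or.inl ⟨i, 1, hi, by omega, rfl⟩)), ?_⟩
        have e := tri z (S1.pj C i z) (S1.av C i v)
        have := near_vl C (S1.av_mem C i v) (z := z) (k := 3) (by omega)
        omega
      · by_cases huw : S1.InArch C i u w 1
        · refine ⟨S1.vl C i (S1.av C i w) (S1.av_mem C i w) 1,
            Or.inr (Or.inr (Or.inr ⟨i, 1, huw, by omega, rfl⟩)), ?_⟩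
          have e := tri z (S1.pj C i z) (S1.av C i w)
          have := near_vl C (S1.av_mem C i w) (z := z) (k := 3) (by omega)
          omega
        · obtain ⟨h4, h5, h6⟩ := not_inArch C huw
          refine ⟨S1.vl C i (S1.av C i u) (S1.av_mem C i u) 1,
            Or.inl (Or.inr (Or.inr ⟨i, 1, hi, by omega, rfl⟩)), ?_⟩
          have e := tri z (S1.pj C i z) (S1.av C i w)
          have e' := tri z (S1.av C i w) (S1.av C i u)
          have s := GMet.symm (S1.av C i w) (S1.av C i u)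
          have := near_vl C (S1.av_mem C i u) (z := z) (k := 4) (by omega)
          omega
    · obtain ⟨h4, h5, h6⟩ := not_inArch C hvw
      refine ⟨S1.vl C i (S1.av C i v) (S1.av_mem C i v) 1,
        Or.inl (Or.inr (Or.inl ⟨i, 1, hi, by omega, rfl⟩)), ?_⟩
      have ha : Pr (C.Y i) (S1.be C v) (S1.av C i v) := S1.pj_spec C i _
      have hb : Pr (C.Y i) (S1.be C w) (S1.av C i w) := S1.pj_spec C i _
      have key : d (S1.av C i v) (S1.pj C i z) ≤ C.R + 32 * θ := by
        by_cases c1 : 8 * θ < d (S1.av C i v) (S1.pj C i z)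
        · by_cases c2 : 8 * θ < d (S1.pj C i z) (S1.av C i w)
          · have := (Pr.p6 hF.hyp hF.one_le (hF.qc i) hz.1 ha hb hcz (Or.inr c1) (Or.inr c2)).2
            omega
          · have e := tri (S1.av C i v) (S1.av C i w) (S1.pj C i z)
            have s := GMet.symm (S1.av C i w) (S1.pj C i z)
            omega
        · omega
      have e := tri z (S1.pj C i z) (S1.av C i v)
      have s := GMet.symm (S1.av C i v) (S1.pj C i z)
      have := near_vl C (S1.av_mem C i v) (z := z) (k := 3) (by omega)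
      omega

end B1b

/-- **Block S1.B1b** from F1. -/
theorem stmt_B1b (hF1 : S1.F1Stmt) : S1.B1bStmt := by
  refine ⟨100, 6, ?_⟩
  intro V ι _ C θ hF hR v w u z hz
  obtain ⟨z', hz', hd⟩ := hF.hyp.slim (S1.be C v) (S1.be C w) (S1.be C u) z hz.1
  rcases hz' with hz' | hz'
  · exact B1b.half C hF1 hF hR v w u z z' hz hz' hd
  · obtain ⟨x, hx, hxd⟩ := B1b.half C hF1 hF hR w v u z z' (B1b.vis_symm C hz) hz'.symm' hd
    refine ⟨x, ?_, hxd⟩
    rcases hx with hx | hx
    · exact Or.inr (B1b.ll_symm C hx)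
    · exact Or.inl (B1b.ll_symm C hx)

end FrobP
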