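import Pool.Agent.Work.MP_50f8f6_al.Interface

/-!
# Block K: iteration of the step theorem
-/

set_option autoImplicit false

namespace FrobP

open GMet

namespace BlockK

/-- A stage of the iteration. -/
structure Stage (δ ℓ A r p : ℕ) (K V : Type) [Group K] [MulAction K V] where
  G : Type
  [grp : Group G]
  W : Type
  [met : GMet W]
  [act : MulAction G W]
  good : Good δ ℓ A r p G W
  π : K →* G
  surj : Function.Surjective π
  f : V → W
  equiv : ∀ (g : K) (x : V), f (g • x) = π g • f x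
  ker : ∀ g : K, π g = 1 → g ∈ Subgroup.closure (Set.range fun x : K => x ^ p)

attribute [instance] Stage.grp Stage.met Stage.act

/-- A link between two stages. -/
structure Link {δ ℓ A r p : ℕ} {K V : Type} [Group K] [MulAction K V]
    (S T : Stage δ ℓ A r p K V) where
  ρ : S.G →* T.G
  h : S.W → T.W
  ρπ : ∀ g : K, T.π g = ρ (S.π g)
  hf : ∀ x : V, T.f x = h (S.f x)
  heq : ∀ (g : S.G) (x : S.W), h (g • x) = ρ g • h x
  con : ∀ x y : S.W, 2 * d (h x) (h y) ≤ d x y + 1
  big : ∀ g : S.G, ρ g = 1 → g ≠ 1 → ∀ x : S.W, 5 ≤ d x (g • x)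
  pw : ∀ (g : S.G) (x : S.W), d x (g • x) ≤ 1 → ρ g ^ p = 1

section

variable {δ ℓ A r p : ℕ} {K V : Type} [Group K] [MulAction K V]

theorem closure_map {G G' : Type} [Group G] [Group G'] (π : G →* G')
    (hπ : Function.Surjective π) {p : ℕ} {y : G'}
    (hy : y ∈ Subgroup.closure (Set.range fun x : G' => x ^ p)) :
    ∃ k ∈ Subgroup.closure (Set.range fun x : G => x ^ p), π k = y := by
  have h : Subgroup.closure (Set.range fun x : G' => x ^ p) ≤
      (Subgroup.closure (Set.range fun x : G => x ^ p)).map π := by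
    rw [Subgroup.closure_le]
    rintro _ ⟨x, rfl⟩
    obtain ⟨g, rfl⟩ := hπ x
    exact ⟨g ^ p, Subgroup.subset_closure ⟨g, rfl⟩, map_pow π g p⟩
  exact h hy

theorem exists_next
    (hstep : ∀ (G W : Type) [Group G] [GMet W] [MulAction G W],
      Good δ ℓ A r p G W →
      ∃ (G' V' : Type) (_ : Group G') (_ : GMet V') (_ : MulAction G' V') (π : G →* G')
        (f : W → V'),
        Function.Surjective π ∧ Good δ ℓ A r p G' V' ∧ (∀ (g : G) (x : W), f (g • x) = π g • f x) ∧
        (∀ x y : W, 2 * d (f x) (f y) ≤ d x y + 1) ∧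
        (∀ g : G, π g = 1 → g ≠ 1 → ∀ x : W, 5 ≤ d x (g • x)) ∧
        (∀ (g : G) (x : W), d x (g • x) ≤ 1 → π g ^ p = 1) ∧
        (∀ g : G, π g = 1 → g ∈ Subgroup.closure (Set.range fun x : G => x ^ p)))
    (S : Stage δ ℓ A r p K V) : ∃ T : Stage δ ℓ A r p K V, Nonempty (Link S T) := by
  obtain ⟨G', V', i1, i2, i3, π, f, h1, h2, h3, h4, h5, h6, h7⟩ := hstep S.G S.W S.good
  have hequiv : ∀ (g : K) (x : V), (f ∘ S.f) (g • x) = (π.comp S.π) g • (f ∘ S.f) x := by
    intro g x
    rw [Function.comp_apply, S.equiv, h3]; rfl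
  have hker : ∀ g : K, (π.comp S.π) g = 1 →
      g ∈ Subgroup.closure (Set.range fun x : K => x ^ p) := by
    intro g hg
    obtain ⟨k, hk, hk'⟩ := closure_map S.π S.surj (h7 (S.π g) hg)
    have h8 : S.π (g * k⁻¹) = 1 := by rw [map_mul, map_inv, hk', mul_inv_cancel]
    have h9 := S.ker _ h8
    have := Subgroup.mul_mem _ h9 hk
    rwa [inv_mul_cancel_right] at this
  let T : Stage δ ℓ A r p K V :=
    { G := G'
      W := V'
      good := h2
      π := π.comp S.π
      surj := h1.comp S.surj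
      f := f ∘ S.f
      equiv := hequiv
      ker := hker }
  exact ⟨T, ⟨
    { ρ := π
      h := f
      ρπ := fun _ => rfl
      hf := fun _ => rfl
      heq := h3
      con := h4
      big := h5
      pw := h6 }⟩⟩

end

section seq

variable {δ ℓ A r p : ℕ} {K V : Type} [Group K] [MulAction K V]
variable (S : ℕ → Stage δ ℓ A r p K V) (lk : ∀ n, Link (S n) (S (n + 1)))

include lk

theorem mono {g : K} {n : ℕ} (h : (S n).π g = 1) : ∀ m, n ≤ m → (S m).π g = 1 := by
  intro m hm
  induction m, hm using Nat.le_induction with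
  | base => exact h
  | succ m _ ih => rw [(lk m).ρπ, ih, map_one]

/-- the union of the kernels -/
def Ninf : Subgroup K where
  carrier := {g | ∃ n, (S n).π g = 1}
  mul_mem' := by
    rintro a b ⟨n, ha⟩ ⟨m, hb⟩
    refine ⟨max n m, ?_⟩
    rw [map_mul, mono S lk ha _ (le_max_left n m), mono S lk hb _ (le_max_right n m), one_mul]
  one_mem' := ⟨0, map_one _⟩
  inv_mem' := by
    rintro a ⟨n, ha⟩
    exact ⟨n, by rw [map_inv, ha, inv_one]⟩

theorem Ninf_normal : (Ninf S lk).Normal := ⟨by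
  rintro a ⟨n, ha⟩ g
  exact ⟨n, by rw [map_mul, map_mul, ha, mul_one, map_inv, mul_inv_cancel]⟩⟩

theorem dist_le (x y : V) (n : ℕ) :
    d ((S n).f x) ((S n).f y) ≤ max 1 (d ((S 0).f x) ((S 0).f y) - n) := by
  induction n with
  | zero => simp
  | succ n ih =>
    have h := (lk n).con ((S n).f x) ((S n).f y)
    rw [← (lk n).hf, ← (lk n).hf] at h
    omega

theorem exists_small (x y : V) : ∃ N, ∀ n, N ≤ n → d ((S n).f x) ((S n).f y) ≤ 1 := by
  refine ⟨d ((S 0).f x) ((S 0).f y), fun n hn => ?_⟩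
  have := dist_le S lk x y n
  omega

theorem survive {g : K} {n : ℕ} (hg : (S n).π g ≠ 1) {x : (S n).W} (hx : d x ((S n).π g • x) ≤ 4) :
    ∀ m, n ≤ m → (S m).π g ≠ 1 ∧ ∃ y : (S m).W, d y ((S m).π g • y) ≤ 4 := by
  intro m hm
  induction m, hm using Nat.le_induction with
  | base => exact ⟨hg, x, hx⟩
  | succ m _ ih =>
    obtain ⟨h1, y, hy⟩ := ih
    refine ⟨?_, (lk m).h y, ?_⟩
    · intro h
      rw [(lk m).ρπ] at h
      have := (lk m).big _ h h1 y
      omega
    · have h2 := (lk m).con y ((S m).π g • y)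
      rw [(lk m).heq, ← (lk m).ρπ] at h2
      omega

theorem eq_one_of_mem {g : K} (hg : g ∈ Ninf S lk) {n : ℕ} {x : (S n).W}
    (hx : d x ((S n).π g • x) ≤ 4) : (S n).π g = 1 := by
  by_contra h
  obtain ⟨m, hm⟩ := hg
  have h1 := (survive S lk h hx (max n m) (le_max_left n m)).1
  exact h1 (mono S lk hm _ (le_max_right n m))

end seq

/-- the sequence of stages -/
def sq {δ ℓ A r p : ℕ} {K V : Type} [Group K] [MulAction K V]
    (nx : Stage δ ℓ A r p K V → Stage δ ℓ A r p K V) (S0 : Stage δ ℓ A r p K V) :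
    ℕ → Stage δ ℓ A r p K V
  | 0 => S0
  | n + 1 => nx (sq nx S0 n)

end BlockK

/-- **Block K**. -/
theorem stmt_K (hst : StepStmt) : BBStmt := by
  classical
  obtain ⟨δ, ℓ, A, r, p0, hδ, hr, hA, hℓ, hstep⟩ := hst
  refine ⟨δ, ℓ, A, r, max p0 3, hr, hA, le_max_right _ _, ?_⟩
  intro p hp hp0 K V _ _ _ hgood
  have hstep' := hstep p hp ((le_max_left _ _).trans hp0)
  have hnext := BlockK.exists_next (δ := δ) (ℓ := ℓ) (A := A) (r := r) (p := p) (K := K) (V := V)
    hstep'
  choose nx hnx using hnext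
  let S0 : BlockK.Stage δ ℓ A r p K V :=
    { G := K
      W := V
      good := hgood
      π := MonoidHom.id K
      surj := Function.surjective_id
      f := id
      equiv := fun _ _ => rfl
      ker := fun g hg => by
        have : g = 1 := hg
        rw [this]; exact one_mem _ }
  obtain ⟨S, hS⟩ : ∃ S : ℕ → BlockK.Stage δ ℓ A r p K V, S = BlockK.sq nx S0 := ⟨_, rfl⟩
  have lk : ∀ n, BlockK.Link (S n) (S (n + 1)) := fun n => by
    rw [hS]
    exact (hnx (BlockK.sq nx S0 n)).some
  let N := BlockK.Ninf S lk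
  have hN : N.Normal := BlockK.Ninf_normal S lk
  obtain ⟨x0⟩ := hgood.ne
  have hker : ∀ g : K, QuotientGroup.mk' N g = 1 ↔ ∃ n : ℕ, (S n).π g = 1 := by
    intro g
    rw [QuotientGroup.mk'_apply, QuotientGroup.eq_one_iff]
    rfl
  have hexp : ∀ g : K, ∃ n : ℕ, (S n).π (g ^ p) = 1 := by
    intro g
    obtain ⟨n, hn⟩ := BlockK.exists_small S lk x0 (g • x0)
    refine ⟨n + 1, ?_⟩
    have h1 := hn n le_rfl
    rw [(S n).equiv] at h1
    rw [(lk n).ρπ, map_pow, map_pow]
    exact (lk n).pw _ _ h1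
  refine ⟨K ⧸ N, inferInstance, QuotientGroup.mk' N, QuotientGroup.mk'_surjective N, ?_, ?_, ?_,
    ?_⟩
  · intro x
    obtain ⟨g, rfl⟩ := QuotientGroup.mk'_surjective N x
    rw [← map_pow, hker]
    exact hexp g
  · intro x y hx hxy
    obtain ⟨g, rfl⟩ := QuotientGroup.mk'_surjective N x
    obtain ⟨h, rfl⟩ := QuotientGroup.mk'_surjective N y
    obtain ⟨n1, hn1⟩ := BlockK.exists_small S lk x0 (g • x0)
    obtain ⟨n2, hn2⟩ := BlockK.exists_small S lk x0 (h • x0)
    set n := max n1 n2 with hn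
    have hg1 := hn1 n (le_max_left _ _)
    have hh1 := hn2 n (le_max_right _ _)
    rw [(S n).equiv] at hg1 hh1
    set w := (S n).f x0 with hw
    set g' := (S n).π g with hg'
    set h' := (S n).π h with hh'
    have hisom := (S n).good.isom
    have hcomm : g' * h' = h' * g' := by
      have h1 : g * h * g⁻¹ * h⁻¹ ∈ N := by
        have h2 : QuotientGroup.mk' N (g * h * g⁻¹ * h⁻¹) = 1 := by
          rw [map_mul, map_mul, map_mul, hxy, map_inv, map_inv]
          group
        rwa [QuotientGroup.mk'_apply, QuotientGroup.eq_one_iff] at h2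
      have h3 : d w ((S n).π (g * h * g⁻¹ * h⁻¹) • w) ≤ 4 := by
        rw [map_mul, map_mul, map_mul, map_inv, map_inv, ← hg', ← hh', mul_smul, mul_smul,
          mul_smul]
        have e1 := tri w (g' • w) (g' • h' • g'⁻¹ • h'⁻¹ • w)
        have e2 := tri w (h' • w) (h' • g'⁻¹ • h'⁻¹ • w)
        have e3 := tri w (g'⁻¹ • w) (g'⁻¹ • h'⁻¹ • w)
        rw [hisom] at e1 e2 e3
        have e4 := hisom g' (g'⁻¹ • w) w
        rw [smul_inv_smul, GMet.symm] at e4
        have e5 := hisom h' (h'⁻¹ • w) w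
        rw [smul_inv_smul, GMet.symm] at e5
        have e6 := GMet.symm w (g' • w)
        have e7 := GMet.symm w (h' • w)
        have e8 := GMet.symm w (g'⁻¹ • w)
        have e9 := GMet.symm w (h'⁻¹ • w)
        omega
      have h4 := BlockK.eq_one_of_mem S lk h1 h3
      rw [map_mul, map_mul, map_mul, map_inv, map_inv, ← hg', ← hh'] at h4
      have h5 : g' * h' = (g' * h' * g'⁻¹ * h'⁻¹) * (h' * g') := by group
      rw [h4, one_mul] at h5
      exact h5
    have hg1' : g' ≠ 1 := by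
      intro h
      apply hx
      rw [hker]
      exact ⟨n, h⟩
    have hcyc := (S n).good.cen g' hg1' ⟨w, by omega⟩
    obtain ⟨⟨e, he⟩, hgen⟩ := hcyc.exists_generator
    obtain ⟨i, hi⟩ := hgen ⟨g', by rw [Subgroup.mem_centralizer_singleton_iff]⟩
    obtain ⟨j, hj⟩ := hgen ⟨h', by rw [Subgroup.mem_centralizer_singleton_iff]; exact hcomm.symm⟩
    have hi' : e ^ i = g' := congrArg Subtype.val hi
    have hj' : e ^ j = h' := congrArg Subtype.val hj
    obtain ⟨et, het⟩ := (S n).surj e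
    have hx1 : QuotientGroup.mk' N g = QuotientGroup.mk' N et ^ i := by
      have h1 : QuotientGroup.mk' N (g * (et ^ i)⁻¹) = 1 := by
        rw [hker]
        exact ⟨n, by rw [map_mul, map_inv, map_zpow, het, hi', ← hg', mul_inv_cancel]⟩
      rw [map_mul, map_inv, map_zpow] at h1
      exact mul_inv_eq_one.1 h1
    have hy1 : QuotientGroup.mk' N h = QuotientGroup.mk' N et ^ j := by
      have h1 : QuotientGroup.mk' N (h * (et ^ j)⁻¹) = 1 := by
        rw [hker]
        exact ⟨n, by rw [map_mul, map_inv, map_zpow, het, hj', ← hh', mul_inv_cancel]⟩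
      rw [map_mul, map_inv, map_zpow] at h1
      exact mul_inv_eq_one.1 h1
    have hep : QuotientGroup.mk' N et ^ p = 1 := by
      rw [← map_pow, hker]
      exact hexp et
    set E := QuotientGroup.mk' N et with hE
    have hpi : ¬ (p : ℤ) ∣ i := by
      rintro ⟨m, hm⟩
      apply hx
      rw [hx1, hm, zpow_mul, zpow_natCast, hep, one_zpow]
    have hcop : IsCoprime (p : ℤ) i :=
      (Nat.prime_iff_prime_int.1 hp).coprime_iff_not_dvd.2 hpi
    obtain ⟨a, b, hab⟩ := hcop
    have hE1 : E = (E ^ i) ^ b := by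
      conv_lhs => rw [← zpow_one E, ← hab, zpow_add, mul_comm a, zpow_mul, zpow_natCast, hep,
        one_zpow, one_mul, mul_comm b, zpow_mul]
    rw [hx1, hy1]
    refine ⟨b * j, ?_⟩
    change (E ^ i) ^ (b * j) = E ^ j
    rw [zpow_mul, ← hE1]
  · rintro g hg ⟨x, hx⟩
    rw [hker] at hg
    subst hS
    exact BlockK.eq_one_of_mem (BlockK.sq nx S0) lk (g := g) hg (n := 0) (x := x) hx
  · intro g hg
    rw [hker] at hg
    obtain ⟨n, hn⟩ := hg
    exact (S n).ker g hn

end FrobP
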