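import Pool.Agent.Work.MP_50f8f6_al_helper43.M2

/-!
# Block M3: the Frobenius `p`-group
-/

set_option autoImplicit false

namespace FrobP

/-- **Block M3**: the frozen statement `S01445` from `FinalStmt`. -/
theorem stmt_M3 (hF : FinalStmt) :
    ∃ (p : ℕ), p.Prime ∧ ∃ (G : Type) (_ : Group G) (F H : Subgroup G),
      IsPGroup p G ∧ F.Normal ∧ F ⊓ H = ⊥ ∧ F ⊔ H = ⊤ ∧ F ≠ ⊥ ∧ H ≠ ⊥ ∧
      (∀ g : G, g ∉ H → ∀ x : G, x ∈ H → g * x * g⁻¹ ∈ H → x = 1) ∧
      (∀ x : G, (x ∈ F ∧ x ≠ 1) ↔ ∀ g : G, g⁻¹ * x * g ∉ H) := by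
  obtain ⟨p, hp, X, ⟨c, hc, hc1⟩, hconj⟩ := hF
  have : Fact p.Prime := ⟨hp⟩
  have hrz : ∀ k : ℤ, X.r (X.h ^ k) = Multiplicative.ofAdd (k : ZMod p) := by
    intro k
    rw [map_zpow, X.rh, ← ofAdd_zsmul]
    congr 1
    simp
  have hcommr : ∀ g x : X.G, X.r (g * x * g⁻¹) = X.r x := by
    intro g x
    rw [map_mul, map_mul, map_inv, mul_comm (X.r g), mul_assoc, mul_inv_cancel, mul_one]
  -- `r` is injective on `H`
  have hinj : ∀ x ∈ Subgroup.zpowers X.h, X.r x = 1 → x = 1 := by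
    rintro x ⟨k, rfl⟩ hx
    have hx' : X.r (X.h ^ k) = 1 := hx
    rw [hrz, ← ofAdd_zero] at hx'
    have h0 : (k : ZMod p) = 0 := Multiplicative.ofAdd.injective hx'
    rw [ZMod.intCast_zmod_eq_zero_iff_dvd] at h0
    obtain ⟨m, rfl⟩ := h0
    change X.h ^ ((p : ℤ) * m) = 1
    rw [zpow_mul, zpow_natCast, X.expo, one_zpow]
  have hinj2 : ∀ x ∈ Subgroup.zpowers X.h, ∀ y ∈ Subgroup.zpowers X.h, X.r x = X.r y → x = y := by
    intro x hx y hy h
    have h1 := hinj (x * y⁻¹) (mul_mem hx (inv_mem hy)) (by rw [map_mul, map_inv, h, mul_inv_cancel])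
    exact mul_inv_eq_one.1 h1
  refine ⟨p, hp, X.G, X.grp, X.r.ker, Subgroup.zpowers X.h, ?_, inferInstance, ?_, ?_, ?_, ?_, ?_,
    ?_⟩
  · intro g
    exact ⟨1, by rw [pow_one, X.expo]⟩
  · rw [eq_bot_iff]
    intro x hx
    rw [Subgroup.mem_inf] at hx
    rw [Subgroup.mem_bot]
    exact hinj x hx.2 hx.1
  · rw [eq_top_iff]
    intro x _
    obtain ⟨k, hk⟩ : ∃ k : ℤ, X.r x = X.r (X.h ^ k) := by
      refine ⟨((Multiplicative.toAdd (X.r x)).val : ℤ), ?_⟩
      rw [hrz]
      simp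
    have e : x = (x * (X.h ^ k)⁻¹) * X.h ^ k := by rw [inv_mul_cancel_right]
    rw [e]
    apply Subgroup.mul_mem
    · apply Subgroup.mem_sup_left
      rw [MonoidHom.mem_ker, map_mul, map_inv, hk, mul_inv_cancel]
    · apply Subgroup.mem_sup_right
      exact ⟨k, rfl⟩
  · intro h
    apply hc1
    have : c ∈ X.r.ker := hc
    rw [h, Subgroup.mem_bot] at this
    exact this
  · intro h
    have h1 : X.h = 1 := by
      have h2 : X.h ∈ Subgroup.zpowers X.h := Subgroup.mem_zpowers _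
      rw [h, Subgroup.mem_bot] at h2
      exact h2
    have h2 := X.rh
    rw [h1, map_one, ← ofAdd_zero] at h2
    exact zero_ne_one (Multiplicative.ofAdd.injective h2)
  · intro g hg x hx hgx
    by_contra hx1
    apply hg
    have h1 : g * x * g⁻¹ = x := hinj2 _ hgx _ hx (hcommr g x)
    have h2 : x * g = g * x := by
      rw [mul_inv_eq_iff_eq_mul] at h1
      exact h1.symm
    exact (Subgroup.zpowers_le.2 hx) (X.cen x g hx1 h2)
  · intro x
    constructor
    · rintro ⟨hx, hx1⟩ g hg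
      apply hx1
      have h1 : X.r (g⁻¹ * x * g) = 1 := by
        have := hcommr g⁻¹ x
        rw [inv_inv] at this
        rw [this]; exact hx
      have h2 := hinj _ hg h1
      have h3 : g * (g⁻¹ * x * g) * g⁻¹ = x := by group
      rw [← h3, h2, mul_one, mul_inv_cancel]
    · intro h
      have hx1 : x ≠ 1 := by
        rintro rfl
        apply h 1
        rw [mul_one, mul_one, inv_one]
        exact one_mem _
      refine ⟨?_, hx1⟩
      by_contra hx
      rw [MonoidHom.mem_ker] at hx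
      set a : ZMod p := Multiplicative.toAdd (X.r x) with ha
      have ha0 : a ≠ 0 := by
        intro h0
        apply hx
        have : X.r x = Multiplicative.ofAdd a := by rw [ha, ofAdd_toAdd]
        rw [this, h0, ofAdd_zero]
      set k : ℕ := (a⁻¹).val with hk
      have hka : ((k : ℕ) : ZMod p) * a = 1 := by
        rw [hk, ZMod.natCast_zmod_val, inv_mul_cancel₀ ha0]
      have h1 : X.r (x ^ k) = Multiplicative.ofAdd 1 := by
        rw [map_pow]
        have : X.r x = Multiplicative.ofAdd a := by rw [ha, ofAdd_toAdd]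
        rw [this, ← ofAdd_nsmul, nsmul_eq_mul, hka]
      obtain ⟨u, hu⟩ := hconj _ h1
      have h2 : (x ^ k) ^ (a.val) = x := by
        rw [← pow_mul]
        have h3 : k * a.val ≡ 1 [MOD p] := by
          rw [← ZMod.natCast_eq_natCast_iff, Nat.cast_mul, Nat.cast_one, ZMod.natCast_zmod_val a,
            hka]
        have h4 : x ^ (k * a.val) = x ^ 1 := by
          rw [← Nat.mod_add_div (k * a.val) p, pow_add, pow_mul, X.expo, one_pow, mul_one, h3,
            ← pow_eq_pow_mod 1 (X.expo x)]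
        rw [h4, pow_one]
      apply h u⁻¹
      rw [inv_inv]
      refine ⟨(a.val : ℤ), ?_⟩
      change X.h ^ (a.val : ℤ) = u * x * u⁻¹
      rw [zpow_natCast, ← hu, conj_pow, h2]

end FrobP
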