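import Pool.Agent.Work.MP_50f8f6_al.Interface

/-!
# Block M2: the final group as an iterated direct limit
-/

set_option autoImplicit false

namespace FrobP

namespace M2

variable {p : ℕ}

def idHom (X : KGrp p) : KHom X X where
  f := MonoidHom.id _
  inj := Function.injective_id
  hr := fun _ => rfl
  hh := rfl

def comp {X Y Z : KGrp p} (ψ : KHom Y Z) (φ : KHom X Y) : KHom X Z where
  f := ψ.f.comp φ.f
  inj := ψ.inj.comp φ.inj
  hr := fun g => by rw [MonoidHom.comp_apply, ψ.hr, φ.hr]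
  hh := by rw [MonoidHom.comp_apply, φ.hh, ψ.hh]

section lim

variable (X : ℕ → KGrp p) (φ : ∀ n, KHom (X n) (X (n + 1)))

/-- the transition maps -/
def tr (i j : ℕ) (h : i ≤ j) : (X i).G →* (X j).G :=
  (Nat.leRec (motive := fun j _ => KHom (X i) (X j)) (idHom (X i))
    (fun k _ ψ => comp (φ k) ψ) h).f

theorem tr_self (i : ℕ) (h : i ≤ i) (x : (X i).G) : tr X φ i i h x = x := by
  rw [tr, Nat.leRec_self]; rfl

theorem tr_succ (i j : ℕ) (h : i ≤ j) (h' : i ≤ j + 1) (x : (X i).G) :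
    tr X φ i (j + 1) h' x = (φ j).f (tr X φ i j h x) := by
  rw [tr, Nat.leRec_succ _ _ h]; rfl

theorem tr_inj (i j : ℕ) (h : i ≤ j) : Function.Injective (tr X φ i j h) := KHom.inj _

theorem tr_r (i j : ℕ) (h : i ≤ j) (x : (X i).G) : (X j).r (tr X φ i j h x) = (X i).r x :=
  KHom.hr _ _

theorem tr_h (i j : ℕ) (h : i ≤ j) : tr X φ i j h (X i).h = (X j).h := KHom.hh _

theorem tr_tr (i j k : ℕ) (h : i ≤ j) (h' : j ≤ k) (x : (X i).G) :
    tr X φ j k h' (tr X φ i j h x) = tr X φ i k (h.trans h') x := by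
  induction k, h' using Nat.le_induction with
  | base => rw [tr_self]
  | succ k hk ih =>
    rw [tr_succ X φ j k hk, ih, ← tr_succ X φ i k (h.trans hk)]

instance : DirectedSystem (fun n => (X n).G) (fun i j h => tr X φ i j h) where
  map_self i x := tr_self X φ i le_rfl x
  map_map k j i hij hjk x := tr_tr X φ i j k hij hjk x

theorem exists_limit : ∃ (Y : KGrp p) (ψ : ∀ n, KHom (X n) Y),
    (∀ n x, (ψ (n + 1)).f ((φ n).f x) = (ψ n).f x) ∧ ∀ y : Y.G, ∃ n x, (ψ n).f x = y := by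
  classical
  let L := DirectLimit (fun n => (X n).G) (tr X φ)
  let of : ∀ n, (X n).G →* L := fun n =>
    { toFun := fun x => ⟦⟨n, x⟩⟧
      map_one' := (DirectLimit.one_def (f := tr X φ) n).symm
      map_mul' := fun x y => (DirectLimit.mul_def (f := tr X φ) n x y).symm }
  have hof : ∀ n x, of n x = (⟦⟨n, x⟩⟧ : L) := fun n x => rfl
  have hinj : ∀ n, Function.Injective (of n) := fun n =>
    DirectLimit.mk_injective (tr X φ) (fun i j h => tr_inj X φ i j h) n
  have hsurj : ∀ y : L, ∃ n x, of n x = y := by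
    intro y
    obtain ⟨n, x, hx⟩ := DirectLimit.exists_eq_mk (tr X φ) y
    exact ⟨n, x, hx.symm⟩
  have htr : ∀ i j (h : i ≤ j) x, of j (tr X φ i j h x) = of i x := by
    intro i j h x
    exact DirectLimit.mk_apply (f := tr X φ) i j x h
  have hsurj2 : ∀ y z : L, ∃ n x x', of n x = y ∧ of n x' = z := by
    intro y z
    obtain ⟨n, x, hx⟩ := hsurj y
    obtain ⟨m, x', hx'⟩ := hsurj z
    refine ⟨max n m, tr X φ _ _ (le_max_left n m) x, tr X φ _ _ (le_max_right n m) x', ?_, ?_⟩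
    · rw [htr, hx]
    · rw [htr, hx']
  have hcnt : Countable L := by
    have : ∀ n, Countable (X n).G := fun n => (X n).cnt
    exact Function.Surjective.countable (f := fun z : (Σ n, (X n).G) => of z.1 z.2)
      (fun y => by obtain ⟨n, x, hx⟩ := hsurj y; exact ⟨⟨n, x⟩, hx⟩)
  let r : L →* Multiplicative (ZMod p) :=
    { toFun := DirectLimit.lift (tr X φ) (fun n x => (X n).r x)
        (fun i j h x => (tr_r X φ i j h x).symm)
      map_one' := by
        rw [DirectLimit.one_def (f := tr X φ) 0, DirectLimit.lift_def]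
        exact map_one _
      map_mul' := by
        intro y z
        obtain ⟨n, x, x', rfl, rfl⟩ := hsurj2 y z
        rw [← map_mul]
        exact map_mul (X n).r x x' }
  have hr : ∀ n x, r (of n x) = (X n).r x := fun n x => rfl
  let Y : KGrp p :=
    { G := L
      cnt := hcnt
      expo := by
        intro y
        obtain ⟨n, x, rfl⟩ := hsurj y
        rw [← map_pow, (X n).expo, map_one]
      cen := by
        intro y z hy hyz
        obtain ⟨n, x, x', rfl, rfl⟩ := hsurj2 y z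
        have h1 : x ≠ 1 := fun h => hy (by rw [h, map_one])
        have h2 : x * x' = x' * x := hinj n (by rw [map_mul, map_mul, hyz])
        obtain ⟨k, hk⟩ := (X n).cen x x' h1 h2
        exact ⟨k, by rw [← hk]; exact (map_zpow (of n) x k).symm⟩
      r := r
      h := of 0 (X 0).h
      rh := by rw [hr]; exact (X 0).rh }
  refine ⟨Y, fun n => { f := of n, inj := hinj n, hr := hr n, hh := ?_ }, ?_, hsurj⟩
  · rw [← tr_h X φ 0 n (Nat.zero_le n), htr]
  · intro n x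
    have h1 := htr n (n + 1) (Nat.le_succ n) x
    rw [tr_succ X φ n n le_rfl, tr_self] at h1
    exact h1

end lim

/-- the hypothesis: one HNN step -/
def Step1 (p : ℕ) : Prop := ∀ (X : KGrp p) (g : X.G), X.r g = Multiplicative.ofAdd 1 →
    ∃ (Y : KGrp p) (φ : KHom X Y), ∃ u : Y.G, u * φ.f g * u⁻¹ = Y.h

theorem exists_plus (hs : Step1 p) (X : KGrp p) : ∃ (Y : KGrp p) (ψ : KHom X Y),
    ∀ g : X.G, X.r g = Multiplicative.ofAdd 1 → ∃ u : Y.G, u * ψ.f g * u⁻¹ = Y.h := by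
  classical
  have := X.cnt
  obtain ⟨e, he⟩ := exists_surjective_nat X.G
  have hnext : ∀ (n : ℕ) (s : Σ Y : KGrp p, KHom X Y), ∃ (Y : KGrp p) (φ : KHom s.1 Y),
      X.r (e n) = Multiplicative.ofAdd 1 → ∃ u : Y.G, u * φ.f (s.2.f (e n)) * u⁻¹ = Y.h := by
    intro n s
    by_cases h : X.r (e n) = Multiplicative.ofAdd 1
    · obtain ⟨Y, φ, u, hu⟩ := hs s.1 (s.2.f (e n)) (by rw [s.2.hr, h])
      exact ⟨Y, φ, fun _ => ⟨u, hu⟩⟩
    · exact ⟨s.1, idHom s.1, fun h' => absurd h' h⟩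
  choose Y' φ' hφ' using hnext
  let s : ℕ → Σ Y : KGrp p, KHom X Y := fun n =>
    Nat.rec ⟨X, idHom X⟩ (fun n s => ⟨Y' n s, comp (φ' n s) s.2⟩) n
  let φ : ∀ n, KHom (s n).1 (s (n + 1)).1 := fun n => φ' n (s n)
  obtain ⟨Y, ψ, h1, _⟩ := exists_limit (fun n => (s n).1) φ
  have h3 : ∀ n g, (ψ n).f ((s n).2.f g) = (ψ 0).f g := by
    intro n g
    induction n with
    | zero => rfl
    | succ n ih => exact (h1 n ((s n).2.f g)).trans ih
  refine ⟨Y, ψ 0, fun g hg => ?_⟩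
  obtain ⟨n, rfl⟩ := he g
  obtain ⟨u, hu⟩ := hφ' n (s n) hg
  refine ⟨(ψ (n + 1)).f u, ?_⟩
  have h4 : (ψ (n + 1)).f ((φ n).f ((s n).2.f (e n))) = (ψ 0).f (e n) := by
    rw [h1 n, h3]
  rw [← h4, ← map_inv, ← map_mul, ← map_mul]
  have h5 := congrArg (ψ (n + 1)).f hu
  rw [(ψ (n + 1)).hh.symm]
  exact h5

theorem exists_final (hs : Step1 p) (X : KGrp p) (c : X.G) (hc : X.r c = 1) (hc1 : c ≠ 1) :
    ∃ Y : KGrp p, (∃ g : Y.G, Y.r g = 1 ∧ g ≠ 1) ∧
      (∀ g : Y.G, Y.r g = Multiplicative.ofAdd 1 → ∃ u : Y.G, u * g * u⁻¹ = Y.h) := by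
  classical
  have hplus := exists_plus hs
  choose P ψ' hψ' using hplus
  let s : ℕ → KGrp p := fun n => Nat.rec X (fun _ Z => P Z) n
  let φ : ∀ n, KHom (s n) (s (n + 1)) := fun n => ψ' (s n)
  obtain ⟨Y, ψ, h1, h2⟩ := exists_limit s φ
  refine ⟨Y, ⟨(ψ 0).f c, ?_, ?_⟩, ?_⟩
  · rw [(ψ 0).hr]; exact hc
  · intro h
    apply hc1
    exact (ψ 0).inj (by rw [h, map_one])
  · intro y hy
    obtain ⟨n, x, rfl⟩ := h2 y
    rw [(ψ n).hr] at hy
    obtain ⟨u, hu⟩ := hψ' (s n) x hy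
    refine ⟨(ψ (n + 1)).f u, ?_⟩
    rw [← h1 n, ← map_inv, ← map_mul, ← map_mul]
    have h5 := congrArg (ψ (n + 1)).f hu
    rw [(ψ (n + 1)).hh.symm]
    exact h5

end M2

/-- **Block M2**. -/
theorem stmt_M2 (h : OneStepStmt) : FinalStmt := by
  obtain ⟨p0, h⟩ := h
  obtain ⟨p, hp0, hp⟩ := Nat.exists_infinite_primes p0
  obtain ⟨h1, X, g, hg, hg1⟩ := h p hp hp0
  obtain ⟨Y, h2, h3⟩ := M2.exists_final h1 X g hg hg1
  exact ⟨p, hp, Y, h2, h3⟩

end FrobP
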